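import Mathlib
import Pool.Agent.TH594.Sponge.High
import Pool.Agent.TH594.Sponge.One

/-!
# MP_ecd4e3_gt, Q1 (Guth's sponge problem)

For every `n ≥ 1` there is `ε_n > 0` such that every open set `U ⊆ ℝⁿ` with `vol U ≤ ε_n` admits a
length-increasing embedding into the closed unit ball.

For `n = 1` we take `ε_1 = 2` and pack the components of `U` into `[-1, 1]` by translations. For
`n ≥ 2` no smallness of the volume is needed. Let `w` be a continuous function on the line with
infinite variation on every nondegenerate interval, and let `F` be the homeomorphism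
`(x_1, …, x_n) ↦ (z_1, x_2 + w (x_1), …, x_n + w (x_{n-1}))`, `z_1 = x_1 + w (z_n)`. If a path `γ`
and its image `F ∘ γ` are both rectifiable, then `w ∘ γ_i` has bounded variation for `i < n`, hence
`γ_i` is constant for `i < n`, and then also `γ_n` is constant. So, after the Lipschitz embedding of
the space into a bounded cube by `arctan` in each coordinate and a final scaling, every nonconstant
rectifiable path is mapped to a path of infinite length.
-/

set_option autoImplicit false

open Set Metric MeasureTheory Topology
open scoped ENNReal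

namespace Pool.Agent.Results.MP_ecd4e3_gt.Sponge

/-- Euclidean space of dimension `n`. -/
abbrev E (n : ℕ) : Type := EuclideanSpace ℝ (Fin n)

/-- The length of a path parametrised by `[0, 1]`: the supremum of the lengths of the inscribed
polygons. The path is rectifiable when this is finite. -/
noncomputable def length {n : ℕ} (γ : ℝ → E n) : ℝ≥0∞ := eVariationOn γ (Icc 0 1)

/-- A map `f` from `U` to the closed unit ball is length-increasing (in the non-strict sense): for
every rectifiable curve `γ` in `U` the curve `f ∘ γ` is at least as long as `γ`. -/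
def LengthIncreasing {n : ℕ} {U : Set (E n)} (f : U → closedBall (0 : E n) 1) : Prop :=
  ∀ γ : ℝ → U, ContinuousOn γ (Icc 0 1) → length (fun t => (γ t : E n)) ≠ ⊤ →
    length (fun t => (γ t : E n)) ≤ length (fun t => (f (γ t) : E n))

/-- `U` admits a length-increasing embedding into the closed unit ball; an embedding is a
homeomorphism onto its image. -/
def Embeds {n : ℕ} (U : Set (E n)) : Prop :=
  ∃ f : U → closedBall (0 : E n) 1, IsEmbedding f ∧ LengthIncreasing f

lemma embeds_high {n : ℕ} (hn : 2 ≤ n) (U : Set (E n)) : Embeds U := by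
  obtain ⟨m, rfl⟩ : ∃ m, n = m + 2 := ⟨n - 2, by omega⟩
  obtain ⟨F, hF, hb, hwild⟩ := Pool.Agent.TH594.Sponge.exists_wild_embedding m
  have hmem : ∀ x, F x ∈ closedBall (0 : E (m + 2)) 1 := fun x => by
    rw [mem_closedBall, dist_zero_right]
    exact hb x
  refine ⟨fun x => ⟨F x, hmem x⟩, (hF.comp IsEmbedding.subtypeVal).codRestrict _ _, ?_⟩
  intro γ hγ hfin
  by_cases htop : length (fun t => F (γ t)) = ⊤
  · have : length (fun t => F (γ t : E (m + 2))) = ⊤ := htop
    show _ ≤ length (fun t => F (γ t : E (m + 2)))
    rw [this]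
    exact le_top
  · have hconst := hwild (fun t => (γ t : E (m + 2))) (continuous_subtype_val.comp_continuousOn hγ)
      hfin htop
    have h0 : length (fun t => (γ t : E (m + 2))) = 0 := by
      apply eVariationOn.constant_on
      rintro _ ⟨s, hs, rfl⟩ _ ⟨t, ht, rfl⟩
      exact hconst s hs t ht
    rw [h0]
    exact zero_le

lemma embeds_one (U : Set (E 1)) (hU : IsOpen U) (hvol : volume U ≤ 2) : Embeds U := by
  obtain ⟨F, hF, hb, hlen⟩ := Pool.Agent.TH594.Sponge.exists_pack_embedding U hU hvol
  have hmem : ∀ x, F x ∈ closedBall (0 : E 1) 1 := fun x => by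
    rw [mem_closedBall, dist_zero_right]
    exact hb x
  refine ⟨fun x => ⟨F x, hmem x⟩, hF.codRestrict _ (fun x => hmem x.1), ?_⟩
  intro γ hγ _
  exact hlen (fun t => (γ t : E 1)) (continuous_subtype_val.comp_continuousOn hγ)
    (fun t _ => (γ t).2)

/-- **Q1 of the problem, affirmative answer.** For every `n ≥ 1` there is `ε > 0` such that every
open set `U ⊆ ℝⁿ` with `vol U ≤ ε` admits a length-increasing embedding into the closed unit ball.
Moreover, for `n ≥ 2` every open set, of any volume, admits one. -/
theorem result :
    (∀ n : ℕ, 1 ≤ n → ∃ ε : ℝ, 0 < ε ∧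
      ∀ U : Set (E n), IsOpen U → volume U ≤ ENNReal.ofReal ε → Embeds U) ∧
    (∀ n : ℕ, 2 ≤ n → ∀ U : Set (E n), IsOpen U → Embeds U) := by
  refine ⟨fun n hn => ⟨2, by norm_num, fun U hU hvol => ?_⟩, fun n hn U _ => embeds_high hn U⟩
  rcases Nat.lt_or_ge n 2 with h | h
  · obtain rfl : n = 1 := by omega
    exact embeds_one U hU (hvol.trans (by norm_num))
  · exact embeds_high h U

end Pool.Agent.Results.MP_ecd4e3_gt.Sponge
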